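import Pool.Agent.H38.O2.Main
import Pool.Agent.H38.O1.N3

/-!
# K7: `th(a,b)` fixes `b` (helper93, helper83, helper77, helper79), given that `T_b⁻¹ T_(tb)` is good
-/

set_option autoImplicit false

namespace ALoop

open Equiv

variable {Q : Type*} {G : Subgroup (Perm Q)} {L : Q → Perm Q} {J : Perm Q} {e : Q}

theorem k7_trick {M : Type*} [Group M] {A B A' B' : M} (h1 : A * A' = A' * A)
    (h2 : B * B' = B' * B) (h3 : A * B = B * A) (h4 : A' * B' = B' * A')
    (h5 : (A * B⁻¹) * (A' * B'⁻¹) = (A' * B'⁻¹) * (A * B⁻¹)) :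
    (A * B) * (A' * B') = (A' * B') * (A * B) := by
  have c1 : Commute A A' := h1
  have c2 : Commute B B' := h2
  have c3 : Commute A B := h3
  have c4 : Commute A' B' := h4
  obtain ⟨x, hx⟩ : ∃ x, x = A * B'⁻¹ * A⁻¹ * B' := ⟨_, rfl⟩
  obtain ⟨y, hy⟩ : ∃ y, y = B⁻¹ * A' * B * A'⁻¹ := ⟨_, rfl⟩
  have yA : Commute y A := by
    rw [hy]
    exact (((c3.symm.inv_left).mul_left c1.symm).mul_left c3.symm).mul_left c1.symm.inv_left
  have yB' : Commute y B' := by
    rw [hy]
    exact (((c2.inv_left).mul_left c4).mul_left c2).mul_left c4.inv_left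
  have xA' : Commute x A' := by
    rw [hx]
    exact (((c1).mul_left c4.symm.inv_left).mul_left c1.inv_left).mul_left c4.symm
  have xB : Commute x B := by
    rw [hx]
    exact (((c3).mul_left c2.symm.inv_left).mul_left c3.inv_left).mul_left c2.symm
  have e1 : B⁻¹ * A' = y * (A' * B⁻¹) := by rw [hy]; group
  have e2 : A * B'⁻¹ = x * (B'⁻¹ * A) := by rw [hx]; group
  have hyx : y * x = 1 := by
    have l1 : A * B⁻¹ * (A' * B'⁻¹) = y * x * (A' * B'⁻¹ * (A * B⁻¹)) := by
      calc A * B⁻¹ * (A' * B'⁻¹) = A * (B⁻¹ * A') * B'⁻¹ := by group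
        _ = A * (y * (A' * B⁻¹)) * B'⁻¹ := by rw [e1]
        _ = (A * y) * A' * (B⁻¹ * B'⁻¹) := by group
        _ = (y * A) * A' * (B'⁻¹ * B⁻¹) := by rw [yA.eq, (c2.inv_inv).eq]
        _ = y * (A * A') * B'⁻¹ * B⁻¹ := by group
        _ = y * (A' * A) * B'⁻¹ * B⁻¹ := by rw [h1]
        _ = y * A' * (A * B'⁻¹) * B⁻¹ := by group
        _ = y * A' * (x * (B'⁻¹ * A)) * B⁻¹ := by rw [e2]
        _ = y * (A' * x) * B'⁻¹ * A * B⁻¹ := by group
        _ = y * (x * A') * B'⁻¹ * A * B⁻¹ := by rw [xA'.eq]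
        _ = _ := by group
    rw [h5] at l1
    have l2 : (1 : M) * (A' * B'⁻¹ * (A * B⁻¹)) = y * x * (A' * B'⁻¹ * (A * B⁻¹)) := by
      rw [one_mul]; exact l1
    exact (mul_right_cancel l2).symm
  have hy' : y = x⁻¹ := eq_inv_of_mul_eq_one_left hyx
  have xA : Commute x A := by
    have := yA
    rw [hy'] at this
    exact Commute.inv_left_iff.1 this
  have xB' : Commute x B' := by
    have := yB'
    rw [hy'] at this
    exact Commute.inv_left_iff.1 this
  have f1 : B' * A = x * (A * B') := by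
    calc B' * A = B' * (A * B'⁻¹) * B' := by group
      _ = B' * (x * (B'⁻¹ * A)) * B' := by rw [e2]
      _ = (B' * x) * B'⁻¹ * A * B' := by group
      _ = (x * B') * B'⁻¹ * A * B' := by rw [xB'.eq]
      _ = _ := by group
  have f2 : B * A' = x * (A' * B) := by
    have g1 : A' * B = x⁻¹ * (B * A') := by
      calc A' * B = B * (B⁻¹ * A') * B := by group
        _ = B * (x⁻¹ * (A' * B⁻¹)) * B := by rw [e1, hy']
        _ = (B * x⁻¹) * A' := by group
        _ = (x⁻¹ * B) * A' := by rw [xB.symm.inv_right.eq]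
        _ = _ := by group
    rw [g1]; group
  calc A * B * (A' * B') = A * (B * A') * B' := by group
    _ = A * (x * (A' * B)) * B' := by rw [f2]
    _ = (A * x) * A' * (B * B') := by group
    _ = (x * A) * A' * (B' * B) := by rw [xA.eq, h2]
    _ = x * (A * A') * B' * B := by group
    _ = x * (A' * A) * B' * B := by rw [h1]
    _ = (x * A') * (A * B') * B := by group
    _ = (A' * x) * (A * B') * B := by rw [xA'.eq]
    _ = A' * (x * (A * B')) * B := by group
    _ = A' * (B' * A) * B := by rw [f1]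
    _ = _ := by group

namespace AL0

theorem k7_one (h : AL0 G L J e) (a b : Q) : ∃ t X : Perm Q, t = Th L J a b ∧
    X = (L b)⁻¹ * t * L b ∧ Commute t X ∧ Commute X (J * X * J) ∧ Commute t (J * X * J) ∧
    (J * X * J) * X = (Tx L J b)⁻¹ * t * Tx L J b * t := by
  obtain ⟨t, ht⟩ : ∃ t, t = Th L J a b := ⟨_, rfl⟩
  obtain ⟨T, hT⟩ : ∃ T, T = Tx L J b := ⟨_, rfl⟩
  obtain ⟨t1, ht1⟩ : ∃ t1, t1 = T⁻¹ * t * T := ⟨_, rfl⟩
  obtain ⟨R, hR⟩ : ∃ R, R = Rt L J b := ⟨_, rfl⟩
  obtain ⟨R', hR'⟩ : ∃ R', R' = Rt L J (J b) := ⟨_, rfl⟩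
  obtain ⟨X, hX⟩ : ∃ X, X = (L b)⁻¹ * t * L b := ⟨_, rfl⟩
  obtain ⟨Y, hY⟩ : ∃ Y, Y = J * X * J := ⟨_, rfl⟩
  have JJ := h.JJ1
  have tG : t ∈ G := by rw [ht]; exact h.Th_mem a b
  have te : t e = e := by rw [ht]; exact h.Th_e a b
  have tJ : t * J = J * t := h.comJ _ tG te
  have TG : T ∈ G := by rw [hT]; exact h.Tx_mem b
  have Te : T e = e := by rw [hT]; exact h.Tx_e b
  have TJ : T * J = J * T := h.comJ _ TG Te
  have Te' : T⁻¹ e = e := by rw [Perm.inv_eq_iff_eq, Te]
  have t1G : t1 ∈ G := by rw [ht1]; exact G.mul_mem (G.mul_mem (G.inv_mem TG) tG) TG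
  have t1e : t1 e = e := by rw [ht1, Perm.mul_apply, Perm.mul_apply, Te, te, Te']
  have t1J : t1 * J = J * t1 := h.comJ _ t1G t1e
  have RG : R ∈ G := by rw [hR]; exact h.memR b
  have RG' : R' ∈ G := by rw [hR']; exact h.memR _
  have e1 : (L a)⁻¹ * R * L a = R * t⁻¹ := by
    rw [ht]; unfold Th; rw [← hR]; group
  have e2 : (L a)⁻¹ * R' * L a = R' * t1 := by
    have k1 := h.K1 a b
    rw [← ht, ← hT] at k1
    have k2 : (Th L J a (J b))⁻¹ = t1 := by
      rw [ht1]
      calc (Th L J a (J b))⁻¹ = T⁻¹ * (T * (Th L J a (J b))⁻¹) := by group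
        _ = _ := by rw [k1]; group
    rw [← k2]; unfold Th; rw [← hR']; group
  have RR : R * R' = R' * R := by rw [hR, hR']; exact h.RRJ b
  have e3 : (R * t⁻¹) * (R' * t1) = (R' * t1) * (R * t⁻¹) := by
    rw [← e1, ← e2]
    calc (L a)⁻¹ * R * L a * ((L a)⁻¹ * R' * L a) = (L a)⁻¹ * (R * R') * L a := by group
      _ = (L a)⁻¹ * (R' * R) * L a := by rw [RR]
      _ = _ := by group
  have e4 : L b = T * R := by rw [hT, hR]; exact h.L_eq b
  have e5 : R⁻¹ * t1 * R = X := by rw [hX, ht1, e4]; group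
  have eY : Y = R'⁻¹ * t * R' := by
    have h1 : J * L b * J = R' := by rw [hR']; exact h.JLJ b
    have h2 : J * (L b)⁻¹ * J = R'⁻¹ := by
      rw [← h1, mul_inv_rev, mul_inv_rev, h.Jinv]; group
    rw [hY, hX]
    calc J * ((L b)⁻¹ * t * L b) * J = J * (L b)⁻¹ * 1 * t * L b * J := by group
      _ = J * (L b)⁻¹ * (J * J) * t * L b * J := by rw [JJ]
      _ = J * (L b)⁻¹ * J * (J * t) * L b * J := by group
      _ = J * (L b)⁻¹ * J * (t * J) * L b * J := by rw [tJ]
      _ = (J * (L b)⁻¹ * J) * t * (J * L b * J) := by group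
      _ = R'⁻¹ * t * R' := by rw [h2, h1]
  have e6 : Y⁻¹ * t1 = X * t⁻¹ := by
    have h1 : (R * t⁻¹) * (R' * t1) = (R * R') * (Y⁻¹ * t1) := by rw [eY]; group
    have h2 : (R' * t1) * (R * t⁻¹) = (R' * R) * (X * t⁻¹) := by rw [← e5]; group
    rw [h1, h2, RR] at e3
    exact mul_left_cancel e3
  have e7 : Y * X = t1 * t := by
    calc Y * X = Y * (X * t⁻¹) * t := by group
      _ = t1 * t := by rw [← e6]; group
  have hYJ : J * Y * J = X := by
    rw [hY]
    calc J * (J * X * J) * J = (J * J) * X * (J * J) := by group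
      _ = X := by rw [JJ]; group
  have e8 : X * Y = t1 * t := by
    have h1 : J * (Y * X) * J = J * (t1 * t) * J := by rw [e7]
    have h2 : J * (Y * X) * J = X * Y := by
      calc J * (Y * X) * J = J * Y * 1 * X * J := by group
        _ = J * Y * (J * J) * X * J := by rw [JJ]
        _ = (J * Y * J) * (J * X * J) := by group
        _ = X * Y := by rw [hYJ, ← hY]
    have h3 : J * (t1 * t) * J = t1 * t := by
      calc J * (t1 * t) * J = (J * t1) * (t * J) := by group
        _ = (t1 * J) * (J * t) := by rw [← t1J, tJ]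
        _ = t1 * (J * J) * t := by group
        _ = t1 * t := by rw [JJ]; group
    rw [h2, h3] at h1
    exact h1
  obtain ⟨mu, hmu⟩ : ∃ mu, mu = R * R' := ⟨_, rfl⟩
  have muG : mu ∈ G := by rw [hmu]; exact G.mul_mem RG RG'
  have mue : mu e = e := by
    rw [hmu, Perm.mul_apply, hR', h.Rt_e, hR, h.Rt_app, h.JL]
  obtain ⟨l, hl⟩ : ∃ l, l = X * t⁻¹ := ⟨_, rfl⟩
  have lG : l ∈ G := by
    rw [hl, hX]
    exact G.mul_mem (G.mul_mem (G.mul_mem (G.inv_mem (h.memL _)) tG) (h.memL _)) (G.inv_mem tG)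
  have e9 : (L a)⁻¹ * mu * L a = mu * l := by
    calc (L a)⁻¹ * mu * L a = ((L a)⁻¹ * R * L a) * ((L a)⁻¹ * R' * L a) := by rw [hmu]; group
      _ = (R * t⁻¹) * (R' * t1) := by rw [e1, e2]
      _ = (R * R') * (Y⁻¹ * t1) := by rw [eY]; group
      _ = mu * l := by rw [e6, hmu, hl]
  obtain ⟨a', ha'⟩ : ∃ a', a' = mu⁻¹ a := ⟨_, rfl⟩
  have mue' : mu⁻¹ e = e := by rw [Perm.inv_eq_iff_eq, mue]
  have hLa' : L a' = mu⁻¹ * L a * mu := by
    have := h.equi _ (G.inv_mem muG) mue' a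
    rw [inv_inv] at this
    rw [this, ha']
  have e10 : l = (L a')⁻¹ * L a := by
    calc l = mu⁻¹ * (mu * l) := by group
      _ = mu⁻¹ * ((L a)⁻¹ * mu * L a) := by rw [e9]
      _ = _ := by rw [hLa']; group
  have hLtb : L (t b) = t * L b * t⁻¹ := (h.equi _ tG te b).symm
  have e11 : l = (L b)⁻¹ * L (t b) := by rw [hl, hX, hLtb]; group
  obtain ⟨u, hu⟩ : ∃ u, u = l e := ⟨_, rfl⟩
  have bu : L b u = t b := by
    rw [hu, e11, ← Perm.mul_apply, ← mul_assoc, mul_inv_cancel, one_mul, h.Le]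
  have au : L a' u = a := by
    rw [hu, e10, ← Perm.mul_apply, ← mul_assoc, mul_inv_cancel, one_mul, h.Le]
  obtain ⟨k, hk⟩ : ∃ k, k = l⁻¹ * L u := ⟨_, rfl⟩
  have kG : k ∈ G := by rw [hk]; exact G.mul_mem (G.inv_mem lG) (h.memL _)
  have ke : k e = e := by
    rw [hk, Perm.mul_apply, h.Le, Perm.inv_eq_iff_eq, hu]
  have kb : k b = b := by
    have h1 : k = (L (L b u))⁻¹ * L b * L u := by rw [hk, bu, e11]; group
    rw [h1, Perm.mul_apply, Perm.mul_apply, h.flex', inv_apply']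
  have ka' : k a' = a' := by
    have h1 : k = (L (L a' u))⁻¹ * L a' * L u := by rw [hk, au, e10]; group
    rw [h1, Perm.mul_apply, Perm.mul_apply, h.flex', inv_apply']
  have kR : Commute k R := by rw [hR]; exact h.comR kG ke kb
  have kR' : Commute k R' := by rw [hR']; exact h.comR kG ke (h.fixJ kG ke kb)
  have kmu : Commute k mu := by rw [hmu]; exact kR.mul_right kR'
  have amu : a = mu a' := by rw [ha', ← Perm.mul_apply, mul_inv_cancel]; rfl
  have ka : k a = a := by
    rw [amu, ← Perm.mul_apply, kmu.eq, Perm.mul_apply, ka']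
  have kLa : Commute k (L a) := h.comL kG ke ka
  have kLb : Commute k (L b) := h.comL kG ke kb
  have kt : Commute k t := by
    rw [ht]; unfold Th; rw [← hR]
    exact ((kLa.inv_right.mul_right kR.inv_right).mul_right kLa).mul_right kR
  have ktb : k (t b) = t b := by rw [← Perm.mul_apply, kt.eq, Perm.mul_apply, kb]
  have kl : Commute k l := by
    rw [e11]; exact kLb.inv_right.mul_right (h.comL kG ke ktb)
  have ku : k u = u := by rw [hu, ← Perm.mul_apply, kl.eq, Perm.mul_apply, ke]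
  have kLu : Commute k (L u) := h.comL kG ke ku
  have kJ : k * J = J * k := h.comJ _ kG ke
  have l_eq : l = L u * k⁻¹ := by
    have h1 : l * k = L u := by rw [hk]; group
    rw [← h1]; group
  have X_eq : X = L u * k⁻¹ * t := by
    rw [← l_eq, hl]; group
  have te' : t⁻¹ e = e := by rw [Perm.inv_eq_iff_eq, te]
  have ke' : k⁻¹ e = e := by rw [Perm.inv_eq_iff_eq, ke]
  have ku' : k⁻¹ u = u := by rw [Perm.inv_eq_iff_eq, ku]
  have kJ' : Commute k⁻¹ J := (show Commute k J from kJ).inv_left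
  have Y_eq : Y = Rt L J (J u) * k⁻¹ * t := by
    rw [hY, X_eq, ← h.JLJ u]
    calc J * (L u * k⁻¹ * t) * J = J * L u * k⁻¹ * (t * J) := by group
      _ = J * L u * k⁻¹ * (J * t) := by rw [tJ]
      _ = J * L u * (k⁻¹ * J) * t := by group
      _ = J * L u * (J * k⁻¹) * t := by rw [kJ'.eq]
      _ = _ := by group
  have tu : t u = u := by
    have h1 : (Y * X) e = e := by rw [e7, Perm.mul_apply, te, t1e]
    have h2 : X e = u := by
      rw [X_eq, Perm.mul_apply, Perm.mul_apply, te, ke', h.Le]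
    have h3 : (k⁻¹ * t) u = t u := by
      rw [kt.inv_left.eq, Perm.mul_apply, ku']
    rw [Perm.mul_apply, h2, Y_eq, mul_assoc, Perm.mul_apply, h3, h.Rt_app] at h1
    have h4 : L (t u) (J u) = L (t u) (J (t u)) := by rw [h1, h.LJ]
    have h5 := (L (t u)).injective h4
    have h6 := congrArg J h5
    rw [h.JJ, h.JJ] at h6
    exact h6.symm
  have tLu : Commute t (L u) := h.comL tG te tu
  have tX : Commute t X := by
    rw [X_eq]; exact (tLu.mul_right kt.symm.inv_right).mul_right (Commute.refl t)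
  have tJ' : Commute t J := tJ
  have tY : Commute t Y := by
    rw [hY]; exact (tJ'.mul_right tX).mul_right tJ'
  have XY : Commute X Y := by
    show X * Y = Y * X
    rw [e7, e8]
  refine ⟨t, X, ht, hX, tX, ?_, ?_, ?_⟩
  · rw [← hY]; exact XY
  · rw [← hY]; exact tY
  · rw [← hY, ← hT, e7, ht1]

end AL0

namespace AL

/-- `l = L_b⁻¹ L_(tb)` is good -/
theorem k7_two (h : AL G L J e) (a b q : Q) {t X l : Perm Q} (ht : t = Th L J a b)
    (hX : X = (L b)⁻¹ * t * L b) (tX : Commute t X) (XY : Commute X (J * X * J))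
    (hl : l = X * t⁻¹) : Commute l (D L J q * l * D L J q) := by
  have h0 := h.al0
  have tG : t ∈ G := by rw [ht]; exact h0.Th_mem a b
  have te : t e = e := by rw [ht]; exact h0.Th_e a b
  obtain ⟨d, hd⟩ : ∃ d, d = D L J b := ⟨_, rfl⟩
  obtain ⟨c, hc⟩ : ∃ c, c = D L J q := ⟨_, rfl⟩
  have dd : d * d = 1 := by rw [hd]; exact h.D_sq b
  have cc : c * c = 1 := by rw [hc]; exact h.D_sq q
  have di : d⁻¹ = d := inv_eq_of_mul_eq_one_left dd
  have ci : c⁻¹ = c := inv_eq_of_mul_eq_one_left cc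
  have hdef : d = L b * J * (L b)⁻¹ := by rw [hd]; rfl
  -- `t` commutes with `d t d`
  have td : Commute t (d * t * d) := by
    have h1 : t = L b * X * (L b)⁻¹ := by rw [hX]; group
    have h2 : d * t * d = L b * (J * X * J) * (L b)⁻¹ := by
      rw [hdef, hX]; group
    have h3 : L b * X * (L b)⁻¹ * (L b * (J * X * J) * (L b)⁻¹) =
        L b * (J * X * J) * (L b)⁻¹ * (L b * X * (L b)⁻¹) := by
      calc L b * X * (L b)⁻¹ * (L b * (J * X * J) * (L b)⁻¹) = L b * (X * (J * X * J)) * (L b)⁻¹ := by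
            group
        _ = L b * ((J * X * J) * X) * (L b)⁻¹ := by rw [XY.eq]
        _ = _ := by group
    show t * (d * t * d) = (d * t * d) * t
    rw [h2]
    calc t * (L b * (J * X * J) * (L b)⁻¹) = L b * X * (L b)⁻¹ * (L b * (J * X * J) * (L b)⁻¹) := by
          rw [← h1]
      _ = _ := by rw [h3, ← h1]
  obtain ⟨s, hs⟩ : ∃ s, s = t * (d * t⁻¹ * d) := ⟨_, rfl⟩
  have dti : d * t⁻¹ * d = (d * t * d)⁻¹ := by
    rw [mul_inv_rev, mul_inv_rev, di]; group
  have htd' : Commute t (d * t⁻¹ * d) := by rw [dti]; exact td.inv_right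
  have s1 : t * d * t⁻¹ = s * d := by
    rw [hs]
    calc t * d * t⁻¹ = t * (d * t⁻¹) * 1 := by group
      _ = t * (d * t⁻¹) * (d * d) := by rw [dd]
      _ = _ := by group
  have s2 : t * t * d * (t * t)⁻¹ = s * s * d := by
    rw [hs]
    calc t * t * d * (t * t)⁻¹ = t * t * (d * t⁻¹) * 1 * t⁻¹ * 1 := by group
      _ = t * t * (d * t⁻¹) * (d * d) * t⁻¹ * (d * d) := by rw [dd]
      _ = t * (t * (d * t⁻¹ * d)) * (d * t⁻¹ * d) * d := by group
      _ = t * ((d * t⁻¹ * d) * t) * (d * t⁻¹ * d) * d := by rw [htd'.eq]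
      _ = _ := by group
  obtain ⟨R, hR⟩ : ∃ R, R = Rt L J q := ⟨_, rfl⟩
  have RG : R ∈ G := by rw [hR]; exact h0.memR q
  have key : ∀ g : Perm Q, g ∈ G → g e = e → R * (g * d * g⁻¹) * R⁻¹ =
      (g * L b * g⁻¹) * c * (g * L b * g⁻¹)⁻¹ := by
    intro g gG ge
    have h1 : g * d * g⁻¹ = D L J (g b) := by rw [hd]; exact h.D_conj gG b
    have h2 : g * L b * g⁻¹ = L (g b) := h.equi g gG ge b
    rw [h1, h2, hc, h.D_conj RG, h.D_conj (h.memL _), hR, h0.Rt_app]
  have k0 := key 1 G.one_mem rfl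
  have k1 := key t tG te
  have k2 := key (t * t) (G.mul_mem tG tG) (by rw [Perm.mul_apply, te, te])
  have ll : t * L b * t⁻¹ = L b * l := by rw [hl, hX]; group
  have lt : Commute t l := by rw [hl]; exact tX.mul_right (Commute.refl t).inv_right
  have ll2 : t * t * L b * (t * t)⁻¹ = L b * (l * l) := by
    calc t * t * L b * (t * t)⁻¹ = t * (t * L b * t⁻¹) * t⁻¹ := by group
      _ = t * (L b * l) * t⁻¹ := by rw [ll]
      _ = (t * L b * t⁻¹) * (t * l) * t⁻¹ := by group
      _ = (L b * l) * (l * t) * t⁻¹ := by rw [ll, lt.eq]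
      _ = _ := by group
  rw [ll, s1] at k1
  rw [ll2, s2] at k2
  have k0' : R * d * R⁻¹ = L b * c * (L b)⁻¹ := by
    have := k0
    simpa using this
  obtain ⟨m, hm⟩ : ∃ m, m = c * l⁻¹ * c := ⟨_, rfl⟩
  obtain ⟨F, hF⟩ : ∃ F, F = (L b)⁻¹ * (R * s * R⁻¹) * L b := ⟨_, rfl⟩
  have kd : (R * d * R⁻¹) * (R * d * R⁻¹) = 1 := by
    calc (R * d * R⁻¹) * (R * d * R⁻¹) = R * (d * d) * R⁻¹ := by group
      _ = 1 := by rw [dd]; group
  have F1 : F = l * m := by
    rw [hF, hm]
    calc (L b)⁻¹ * (R * s * R⁻¹) * L b = (L b)⁻¹ * (R * s * 1 * R⁻¹) * L b := by group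
      _ = (L b)⁻¹ * (R * s * (d * d) * R⁻¹) * L b := by rw [dd]
      _ = (L b)⁻¹ * ((R * (s * d) * R⁻¹) * (R * d * R⁻¹)) * L b := by group
      _ = (L b)⁻¹ * ((L b * l * c * (L b * l)⁻¹) * (L b * c * (L b)⁻¹)) * L b := by rw [k1, k0']
      _ = _ := by group
  have F2 : F * F = l * l * (m * m) := by
    rw [hF, hm]
    calc (L b)⁻¹ * (R * s * R⁻¹) * L b * ((L b)⁻¹ * (R * s * R⁻¹) * L b) =
        (L b)⁻¹ * (R * (s * s) * 1 * R⁻¹) * L b := by group
      _ = (L b)⁻¹ * (R * (s * s) * (d * d) * R⁻¹) * L b := by rw [dd]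
      _ = (L b)⁻¹ * ((R * (s * s * d) * R⁻¹) * (R * d * R⁻¹)) * L b := by group
      _ = (L b)⁻¹ * ((L b * (l * l) * c * (L b * (l * l))⁻¹) * (L b * c * (L b)⁻¹)) * L b := by
          rw [k2, k0']
      _ = l * l * (c * l⁻¹ * 1 * l⁻¹ * c) := by group
      _ = l * l * (c * l⁻¹ * (c * c) * l⁻¹ * c) := by rw [cc]
      _ = _ := by group
  rw [F1] at F2
  have lm : l * m = m * l := by
    have h1 : l * (m * l) * m = l * (l * m) * m := by
      calc l * (m * l) * m = l * m * (l * m) := by group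
        _ = l * l * (m * m) := F2
        _ = _ := by group
    exact (mul_left_cancel (mul_right_cancel h1)).symm
  have hm' : c * l * c = m⁻¹ := by
    rw [hm, mul_inv_rev, mul_inv_rev, ci, inv_inv]; group
  rw [← hc, hm']
  exact (show Commute l m from lm).inv_right

/-- **K7** -/
theorem k7 [Finite Q] (h : AL G L J e) (hna : ¬ Assoc L) (hfix : ∀ x, J x = x → x = e)
    (hτ : ∀ a b q : Q, Commute ((Tx L J b)⁻¹ * Th L J a b * Tx L J b * (Th L J a b)⁻¹)
      (D L J q * ((Tx L J b)⁻¹ * Th L J a b * Tx L J b * (Th L J a b)⁻¹) * D L J q))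
    (a b : Q) : Th L J a b b = b := by
  have h0 := h.al0
  obtain ⟨t, X, ht, hX, tX, XY, tY, hYX⟩ := h0.k7_one a b
  obtain ⟨l, hl⟩ : ∃ l, l = X * t⁻¹ := ⟨_, rfl⟩
  have good : ∀ q, Commute l (D L J q * l * D L J q) := fun q => h.k7_two a b q ht hX tX XY hl
  have JJ := h0.JJ1
  have tG : t ∈ G := by rw [ht]; exact h0.Th_mem a b
  have te : t e = e := by rw [ht]; exact h0.Th_e a b
  have tJ : Commute t J := h.comJ _ tG te
  have lG : l ∈ G := by
    rw [hl, hX]
    exact G.mul_mem (G.mul_mem (G.mul_mem (G.inv_mem (h.memL _)) tG) (h.memL _)) (G.inv_mem tG)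
  obtain ⟨r, hr⟩ : ∃ r, r = J * l * J := ⟨_, rfl⟩
  have r_eq : r = (J * X * J) * t⁻¹ := by
    rw [hr, hl]
    calc J * (X * t⁻¹) * J = J * X * (t⁻¹ * J) := by group
      _ = J * X * (J * t⁻¹) := by rw [tJ.inv_left.eq]
      _ = _ := by group
  have lr : Commute l r := by
    have := good e
    rw [h.D_e, ← hr] at this
    exact this
  have lr_eq : l * r = (Tx L J b)⁻¹ * Th L J a b * Tx L J b * (Th L J a b)⁻¹ := by
    rw [lr.eq, r_eq, hl, ← ht]
    calc J * X * J * t⁻¹ * (X * t⁻¹) = J * X * J * (t⁻¹ * X) * t⁻¹ := by group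
      _ = J * X * J * (X * t⁻¹) * t⁻¹ := by rw [tX.inv_left.eq]
      _ = (J * X * J * X) * t⁻¹ * t⁻¹ := by group
      _ = _ := by rw [hYX]; group
  have goodr : ∀ q, Commute r (D L J q * r * D L J q) := by
    intro q
    have h1 := good (J q)
    have h2 : D L J (J q) = J * D L J q * J := (h.D_J q).symm
    rw [h2] at h1
    have h3 : l = J * r * J := by
      rw [hr]
      calc l = 1 * l * 1 := by group
        _ = (J * J) * l * (J * J) := by rw [JJ]
        _ = _ := by group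
    have h4 : J * D L J q * J * l * (J * D L J q * J) = J * (D L J q * r * D L J q) * J := by
      rw [hr]
      group
    rw [h4] at h1
    have h5 : l * (J * (D L J q * r * D L J q) * J) = (J * (D L J q * r * D L J q) * J) * l := h1
    rw [h3] at h5
    have h6 : J * (r * (D L J q * r * D L J q)) * J = J * ((D L J q * r * D L J q) * r) * J := by
      calc J * (r * (D L J q * r * D L J q)) * J = J * r * 1 * (D L J q * r * D L J q) * J := by
            group
        _ = J * r * (J * J) * (D L J q * r * D L J q) * J := by rw [JJ]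
        _ = J * r * J * (J * (D L J q * r * D L J q) * J) := by group
        _ = J * (D L J q * r * D L J q) * J * (J * r * J) := h5
        _ = J * (D L J q * r * D L J q) * (J * J) * r * J := by group
        _ = _ := by rw [JJ]; group
    exact mul_left_cancel (mul_right_cancel h6)
  obtain ⟨v, hv⟩ : ∃ v, v = l * r⁻¹ := ⟨_, rfl⟩
  have hcom : ∀ q, v * (D L J q * v * D L J q) = (D L J q * v * D L J q) * v := by
    intro q
    obtain ⟨c, hc⟩ : ∃ c, c = D L J q := ⟨_, rfl⟩
    have cc : c * c = 1 := by rw [hc]; exact h.D_sq q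
    have ci : c⁻¹ = c := inv_eq_of_mul_eq_one_left cc
    have g1 : l * (c * l * c) = (c * l * c) * l := by rw [hc]; exact good q
    have g2 : r * (c * r * c) = (c * r * c) * r := by rw [hc]; exact goodr q
    have cinv : ∀ x : Perm Q, c * x⁻¹ * c = (c * x * c)⁻¹ := by
      intro x; rw [mul_inv_rev, mul_inv_rev, ci]; group
    have cmul : ∀ x y : Perm Q, c * (x * y) * c = (c * x * c) * (c * y * c) := by
      intro x y
      calc c * (x * y) * c = c * x * 1 * y * c := by group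
        _ = c * x * (c * c) * y * c := by rw [cc]
        _ = _ := by group
    have g3 : Commute (l * r) (c * (l * r) * c) := by
      rw [lr_eq, hc]; exact hτ a b q
    have t1 := k7_trick (A := l) (B := r⁻¹) (A' := c * l * c) (B' := (c * r * c)⁻¹) g1
      ((show Commute r (c * r * c) from g2).inv_inv).eq (lr.inv_right).eq ?_ ?_
    · rw [hv, ← hc, cmul, cinv]
      exact t1
    · have : Commute (c * l * c) (c * r * c) := by
        show (c * l * c) * (c * r * c) = (c * r * c) * (c * l * c)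
        rw [← cmul, ← cmul, lr.eq]
      exact this.inv_right.eq
    · rw [inv_inv, inv_inv, ← cmul]
      exact g3
  have vG : v ∈ G := by
    rw [hv, hr]; exact G.mul_mem lG (G.inv_mem (h.JG _ lG))
  have hinv : D L J e * v * D L J e = v⁻¹ := by
    rw [h.D_e, hv]
    have h1 : J * r * J = l := by
      rw [hr]
      calc J * (J * l * J) * J = (J * J) * l * (J * J) := by group
        _ = l := by rw [JJ]; group
    have h2 : J * r⁻¹ * J = l⁻¹ := by
      rw [← h1, mul_inv_rev, mul_inv_rev, h0.Jinv]; group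
    calc J * (l * r⁻¹) * J = J * l * 1 * r⁻¹ * J := by group
      _ = J * l * (J * J) * r⁻¹ * J := by rw [JJ]
      _ = (J * l * J) * (J * r⁻¹ * J) := by group
      _ = r * l⁻¹ := by rw [← hr, h2]
      _ = _ := by group
  obtain ⟨u, hu⟩ : ∃ u, u = l e := ⟨_, rfl⟩
  have v_eq : v = D L J u * D L J e := by
    have h1 := h.D_conj lG e
    rw [h.D_e] at h1 ⊢
    rw [hu, ← h1, hv, hr, mul_inv_rev, mul_inv_rev, h0.Jinv]; group
  obtain ⟨n, hn, hvn⟩ := h.odd_DD hfix u e
  have v1 : v = 1 := h.close hna vG hn (by rw [v_eq]; exact hvn) hinv hcom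
  have hDu : D L J u = D L J e := by
    rw [v1] at v_eq
    have h1 : D L J e * D L J e = 1 := h.D_sq e
    have h2 : D L J u * D L J e = D L J e * D L J e := by rw [← v_eq, h1]
    exact mul_right_cancel h2
  have ue : u = e := h.D_inj hDu
  have hLtb : L (t b) = t * L b * t⁻¹ := (h.equi _ tG te b).symm
  have hl2 : l = (L b)⁻¹ * L (t b) := by rw [hl, hX, hLtb]; group
  have : L b u = t b := by
    rw [hu, hl2, ← Perm.mul_apply, ← mul_assoc, mul_inv_cancel, one_mul, h.Le]
  rw [ue, h.Le] at this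
  rw [← ht]
  exact this.symm

end AL

end ALoop
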